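import Pool.Agent.H282R5.PC.Defs

/-! STUB (statements only). -/

namespace H282R5.PC

open MeasureTheory
open scoped Real ENNReal
open H282R3.SQ (USq Inside)
open H282R4.PK (slope rho tr F FH cell Rg Kg C0 Bx U V)

/-- The horizontal lines `y = y0 + j` meet a vertically cut unit square in total length at most the
area of the part plus `6 |b|`. -/
theorem chord_part (Q : USq) (hb : |Q.b| ≤ Q.a) (y0 : ℝ) (m : ℕ) (u1 u2 : ℝ) (hu : u1 ≤ u2) :
    ∑ j ∈ Finset.range (m + 1),
        (volume {x : ℝ | x ∈ Set.Icc u1 u2 ∧ (x, y0 + (j : ℝ)) ∈ Q.O}).toReal ≤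
      (volume (Q.C ∩ {z | z.1 ∈ Set.Icc u1 u2})).toReal + 6 * |Q.b| := by
  sorry

end H282R5.PC
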