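import Pool.Agent.H282R5.PC.Defs

/-! STUB (statements only). -/

namespace H282R5.PC

open MeasureTheory
open scoped Real ENNReal
open H282R3.SQ (USq Inside)
open H282R4.PK (slope rho tr F FH cell Rg Kg C0 Bx U V)

theorem cluster_rho {ι : Type} [Fintype ι] (M : ℕ) (hM : Fintype.card ι ≤ M)
    (Fm : ι → USq) (S : Set (ℝ × ℝ)) (hS : Convex ℝ S)
    (hcov : ∀ x ∈ S, ∃ i, x ∈ (Fm i).C) (τ : ℝ) (hτ0 : 0 ≤ τ) (hτ : τ < 1 / 16)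
    (htri : ∀ i j, i ≠ j → ∀ z1 z2 z3 : ℝ × ℝ, z1 ∈ (Fm i).C ∩ (Fm j).C →
      z2 ∈ (Fm i).C ∩ (Fm j).C → z3 ∈ (Fm i).C ∩ (Fm j).C → |H282R3.SQ.det3 z1 z2 z3| ≤ τ)
    (A B : ι) (hAS : (Fm A).C ⊆ S) (hBS : (Fm B).C ⊆ S) :
    rho (Fm A) (Fm B) ≤ 128 * (M : ℝ) ^ 5 * τ := by
  sorry

end H282R5.PC
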