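import Pool.Agent.H282R5.PC.Defs

/-! STUB (statements only). -/

namespace H282R5.PC

open MeasureTheory
open scoped Real ENNReal
open H282R3.SQ (USq Inside)
open H282R4.PK (slope rho tr F FH cell Rg Kg C0 Bx U V)

theorem col_gam {n : ℕ} {o : ℝ × ℝ} {ι : Type} [Countable ι] {I : Finset ι} {Q : ι → USq} {W : ℝ}
    (h : Cvr n o I Q W)
    (m k : ℤ) (hk : -1 ≤ k) (hk2 : k ≤ n + 6) : gam Q (m, k) ≤ 12 * C0 * cw n Q m := by
  sorry

theorem row_gam {n : ℕ} {o : ℝ × ℝ} {ι : Type} [Countable ι] {I : Finset ι} {Q : ι → USq} {W : ℝ}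
    (h : Cvr n o I Q W)
    (m m' k : ℤ) : |gam Q (m, k) - gam Q (m', k)| ≤ 8 * C0 * ∑ j ∈ Finset.uIcc m m', om Q (j, k) := by
  sorry

end H282R5.PC
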