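import Pool.Agent.H282R5.PC.Defs

/-! STUB (statements only). -/

namespace H282R5.PC

open MeasureTheory
open scoped Real ENNReal
open H282R3.SQ (USq Inside)
open H282R4.PK (slope rho tr F FH cell Rg Kg C0 Bx U V)

/-- combination -/
theorem combine (n : ℕ) (o : ℝ × ℝ) (ι : Type) [Countable ι] (I : Finset ι) (Q : ι → USq) (W : ℝ)
    (hn : 1 ≤ n) (hW : 1 ≤ W) (h : Cvr n o I Q W) :
    1 / 10 ^ 200 * (n : ℝ) ^ ((3 : ℝ) / 5) ≤ W := by
  sorry

end H282R5.PC
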