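import Pool.Agent.H282R5.PC.Defs

/-! STUB (statements only). -/

namespace H282R5.PC

open MeasureTheory
open scoped Real ENNReal
open H282R3.SQ (USq Inside)
open H282R4.PK (slope rho tr F FH cell Rg Kg C0 Bx U V)

/-- core of the local lemma; `w = (-b, a)` is the vertical reference vector, `b = -w.1` -/
theorem LL_core {n : ℕ} {o : ℝ × ℝ} {ι : Type} [Countable ι] {I : Finset ι} {Q : ι → USq} {W : ℝ}
    (h : Cvr n o I Q W)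
    (z : ℤ × ℤ) (w : ℝ × ℝ) (hw : w.1 ^ 2 + w.2 ^ 2 = 1) (hw2 : |w.1| ≤ w.2 / 4)
    (L : ℕ) (hL : 1 ≤ L) (hLw : L * |w.1| ≤ 1 / 8) (T S : Set ℝ) (hT : MeasurableSet T)
    (hS : MeasurableSet S) (hT1 : T ⊆ Set.Icc 0 1) (hS1 : S ⊆ Set.Icc 0 1)
    (hTg : ∀ t ∈ T, ov Q (z.1 + t, (z.2 : ℝ)) = 0 ∧ ov Q (z.1 + t + L, (z.2 : ℝ)) = 0)
    (hSg : ∀ s ∈ S, ov Q ((z.1 : ℝ), z.2 + s) = 0 ∧ ov Q ((z.1 : ℝ), z.2 + s + L) = 0) :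
    (∫⁻ t in T, ‖F Q (z.1 + t + L, (z.2 : ℝ)) *
        Complex.exp (2 * π * Complex.I * (-(L * w.1) : ℝ)) - F Q (z.1 + t, (z.2 : ℝ))‖ₑ) *
      (∫⁻ s in S, ‖FH Q ((z.1 : ℝ), z.2 + s + L) *
        Complex.exp (2 * π * Complex.I * (L * w.1 : ℝ)) - FH Q ((z.1 : ℝ), z.2 + s)‖ₑ) ≤
      ENNReal.ofReal (2000 * Dev Q w (Bx L z)) := by
  sorry

end H282R5.PC
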