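import Pool.Agent.H282R5.PC.Defs

/-! STUB (statements only). -/

namespace H282R5.PC

open MeasureTheory
open scoped Real ENNReal
open H282R3.SQ (USq Inside)
open H282R4.PK (slope rho tr F FH cell Rg Kg C0 Bx U V)

theorem dev_bound {n : ℕ} {o : ℝ × ℝ} {ι : Type} [Countable ι] {I : Finset ι} {Q : ι → USq} {W : ℝ}
    (h : Cvr n o I Q W)
    (z : ℤ × ℤ) (hz : nice Q z) (L : ℕ) :
    Dev Q (-(bet Q z) / Real.sqrt (1 + bet Q z ^ 2), 1 / Real.sqrt (1 + bet Q z ^ 2)) (Bx L z) ≤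
      1000 * C0 * E Q L z := by
  sorry

end H282R5.PC
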