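import Pool.Agent.H282R5.PC.Defs

/-! STUB (statements only). -/

namespace H282R5.PC

open MeasureTheory
open scoped Real ENNReal
open H282R3.SQ (USq Inside)
open H282R4.PK (slope rho tr F FH cell Rg Kg C0 Bx U V)

/-- the energy of the small slopes is at least a constant times `n` -/
theorem energy_lower {n : ℕ} {o : ℝ × ℝ} {ι : Type} [Countable ι] {I : Finset ι} {Q : ι → USq} {W : ℝ}
    (h : Cvr n o I Q W)
    (hn : 1 ≤ n) (hW : 1 ≤ W) (hWn : 10 ^ 200 * W ^ 5 ≤ (n : ℝ) ^ 3)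
    (τ : ℝ) (h1 : τ < 1 / 4) (hτ : 10 ^ 30 * W ≤ τ * n) :
    (n : ℝ) / 10 ^ 6 ≤ energy n Q τ := by
  sorry

end H282R5.PC
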