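import Pool.Agent.H282R5.PC.Defs

/-! STUB (statements only). -/

namespace H282R5.PC

open MeasureTheory
open scoped Real ENNReal
open H282R3.SQ (USq Inside)
open H282R4.PK (slope rho tr F FH cell Rg Kg C0 Bx U V)

/-- a covering of `[0,n]²` by `N` open unit squares gives a covering of the plane -/
theorem exists_Cvr (n N : ℕ) (hn : 1 ≤ n) (Q0 : Fin N → USq) (hc : H282R3.SQ.Cov n Q0) :
    ∃ (ι : Type) (_ : Countable ι) (o : ℝ × ℝ) (I : Finset ι) (Q : ι → USq),
      Cvr n o I Q (5 * ((N : ℝ) - (n : ℝ) ^ 2)) := by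
  sorry

end H282R5.PC
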