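import Pool.Agent.H282R5.PC.Defs

/-! STUB (statements only). -/

namespace H282R5.PC

open MeasureTheory
open scoped Real ENNReal
open H282R3.SQ (USq Inside)
open H282R4.PK (slope rho tr F FH cell Rg Kg C0 Bx U V)

/-- local finiteness (area; all overlaps together have area at most `W`) -/
theorem fin_meet {n : ℕ} {o : ℝ × ℝ} {ι : Type} [Countable ι] {I : Finset ι} {Q : ι → USq} {W : ℝ}
    (h : Cvr n o I Q W)
    (B : Set (ℝ × ℝ)) (hB : Bornology.IsBounded B) : {i | ((Q i).C ∩ B).Nonempty}.Finite := by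
  sorry

theorem measurable_ov {ι : Type} [Countable ι] (Q : ι → USq) : Measurable (ov Q) := by
  sorry

/-- the waste is finite -/
theorem wst_ne_top {n : ℕ} {o : ℝ × ℝ} {ι : Type} [Countable ι] {I : Finset ι} {Q : ι → USq} {W : ℝ}
    (h : Cvr n o I Q W)
    (B : Set (ℝ × ℝ)) : ∫⁻ z in B, ov Q z ∂lam ≠ ⊤ := by
  sorry

theorem ofReal_wst {n : ℕ} {o : ℝ × ℝ} {ι : Type} [Countable ι] {I : Finset ι} {Q : ι → USq} {W : ℝ}
    (h : Cvr n o I Q W)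
    (B : Set (ℝ × ℝ)) : ENNReal.ofReal (wst Q B) = ∫⁻ z in B, ov Q z ∂lam := by
  sorry

theorem wst_nonneg {ι : Type} (Q : ι → USq) (B : Set (ℝ × ℝ)) : 0 ≤ wst Q B := by
  sorry

theorem wst_mono {n : ℕ} {o : ℝ × ℝ} {ι : Type} [Countable ι] {I : Finset ι} {Q : ι → USq} {W : ℝ}
    (h : Cvr n o I Q W)
    (A B : Set (ℝ × ℝ)) (hAB : A ⊆ B) : wst Q A ≤ wst Q B := by
  sorry

/-- area part -/
theorem area_le {n : ℕ} {o : ℝ × ℝ} {ι : Type} [Countable ι] {I : Finset ι} {Q : ι → USq} {W : ℝ}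
    (h : Cvr n o I Q W)
    (B : Set (ℝ × ℝ)) : ∫⁻ z in B, ov Q z ≤ ENNReal.ofReal (wst Q B) := by
  sorry

/-- horizontal line part -/
theorem hor_le {n : ℕ} {o : ℝ × ℝ} {ι : Type} [Countable ι] {I : Finset ι} {Q : ι → USq} {W : ℝ}
    (h : Cvr n o I Q W) (k : ℤ)
    (A : Set ℝ) (hA : MeasurableSet A) (B : Set (ℝ × ℝ)) (hB : MeasurableSet B)
    (hAB : ∀ X ∈ A, (X, (k : ℝ)) ∈ B) :
    ∫⁻ X in A, ov Q (X, (k : ℝ)) ≤ ENNReal.ofReal (wst Q B) := by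
  sorry

/-- vertical line part -/
theorem ver_le {n : ℕ} {o : ℝ × ℝ} {ι : Type} [Countable ι] {I : Finset ι} {Q : ι → USq} {W : ℝ}
    (h : Cvr n o I Q W) (k : ℤ)
    (A : Set ℝ) (hA : MeasurableSet A) (B : Set (ℝ × ℝ)) (hB : MeasurableSet B)
    (hAB : ∀ Y ∈ A, ((k : ℝ), Y) ∈ B) :
    ∫⁻ Y in A, ov Q ((k : ℝ), Y) ≤ ENNReal.ofReal (wst Q B) := by
  sorry

/-- the number of squares in a window -/
theorem card_Rg {n : ℕ} {o : ℝ × ℝ} {ι : Type} [Countable ι] {I : Finset ι} {Q : ι → USq} {W : ℝ}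
    (h : Cvr n o I Q W)
    (c : ℤ × ℤ) (J : Finset ι) (hJ : ∀ i ∈ J, (Q i).C ⊆ Rg c) : (J.card : ℝ) ≤ 121 + om Q c := by
  sorry

/-- overlap of two squares -/
theorem overlap {n : ℕ} {o : ℝ × ℝ} {ι : Type} [Countable ι] {I : Finset ι} {Q : ι → USq} {W : ℝ}
    (h : Cvr n o I Q W)
    (c : ℤ × ℤ) (i j : ι) (hij : i ≠ j) (hi : (Q i).C ⊆ Rg c) :
    (volume ((Q i).C ∩ (Q j).C)).toReal ≤ om Q c := by
  sorry

/-- almost every point lies in an open square -/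
theorem one_le_mult {n : ℕ} {o : ℝ × ℝ} {ι : Type} [Countable ι] {I : Finset ι} {Q : ι → USq} {W : ℝ}
    (h : Cvr n o I Q W) :
    ∀ᵐ z : ℝ × ℝ, 1 ≤ mult Q z := by
  sorry

end H282R5.PC
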