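import Pool.Agent.H282R5.PC.Defs

/-! STUB (statements only). -/

namespace H282R5.PC

open MeasureTheory
open scoped Real ENNReal
open H282R3.SQ (USq Inside)
open H282R4.PK (slope rho tr F FH cell Rg Kg C0 Bx U V)

/-- a covering of `[0,n]²` by open unit squares uses at least `n² + c n^(3/5)` squares -/
theorem cov_lower (n N : ℕ) (hn : 1 ≤ n) (Q0 : Fin N → USq) (hc : H282R3.SQ.Cov n Q0) :
    1 / 10 ^ 201 * (n : ℝ) ^ ((3 : ℝ) / 5) ≤ (N : ℝ) - (n : ℝ) ^ 2 := by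
  sorry

/-- the lower bound for `P(n)` -/
theorem P_lower (n : ℕ) (hn : 1 ≤ n) :
    1 / 10 ^ 201 * (n : ℝ) ^ ((3 : ℝ) / 5) ≤ (H282R3.SQ.P n : ℝ) - (n : ℝ) ^ 2 := by
  sorry

end H282R5.PC
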