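import Pool.Agent.H282R5.PC.Defs

/-! STUB (statements only). -/

namespace H282R5.PC

open MeasureTheory
open scoped Real ENNReal
open H282R3.SQ (USq Inside)
open H282R4.PK (slope rho tr F FH cell Rg Kg C0 Bx U V)

/-- on every horizontal line the phase has modulus one almost everywhere outside the overlaps -/
theorem norm_F_horiz {n : ℕ} {o : ℝ × ℝ} {ι : Type} [Countable ι] {I : Finset ι} {Q : ι → USq} {W : ℝ}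
    (h : Cvr n o I Q W)
    (y : ℝ) : ∀ᵐ X : ℝ, ov Q (X, y) = 0 → ‖F Q (X, y)‖ = 1 := by
  sorry

theorem norm_F_le {n : ℕ} {o : ℝ × ℝ} {ι : Type} [Countable ι] {I : Finset ι} {Q : ι → USq} {W : ℝ}
    (h : Cvr n o I Q W)
    (y : ℝ) : ∀ᵐ X : ℝ, ‖F Q (X, y)‖ₑ ≤ 1 + 2 * ov Q (X, y) := by
  sorry

theorem norm_FH_vert {n : ℕ} {o : ℝ × ℝ} {ι : Type} [Countable ι] {I : Finset ι} {Q : ι → USq} {W : ℝ}
    (h : Cvr n o I Q W)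
    (x : ℝ) : ∀ᵐ Y : ℝ, ov Q (x, Y) = 0 → ‖FH Q (x, Y)‖ = 1 := by
  sorry

theorem norm_FH_le {n : ℕ} {o : ℝ × ℝ} {ι : Type} [Countable ι] {I : Finset ι} {Q : ι → USq} {W : ℝ}
    (h : Cvr n o I Q W)
    (x : ℝ) : ∀ᵐ Y : ℝ, ‖FH Q (x, Y)‖ₑ ≤ 1 + 2 * ov Q (x, Y) := by
  sorry

theorem good_ae {n : ℕ} {o : ℝ × ℝ} {ι : Type} [Countable ι] {I : Finset ι} {Q : ι → USq} {W : ℝ}
    (h : Cvr n o I Q W) :
    ∀ᵐ z : ℝ × ℝ, ov Q z = 0 → ‖F Q z‖ = 1 ∧ ‖FH Q z‖ = 1 ∧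
      Gs Q z = F Q z * (1 + (starRingEnd ℂ) (FH Q z)) := by
  sorry

end H282R5.PC
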