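import Pool.Agent.H282R5.PC.Defs

/-! STUB (statements only). -/

namespace H282R5.PC

open MeasureTheory
open scoped Real ENNReal
open H282R3.SQ (USq Inside)
open H282R4.PK (slope rho tr F FH cell Rg Kg C0 Bx U V)

open Classical in
/-- discrete Sobolev inequality: the energy of the slopes above `2 t` near a good column -/
theorem high_energy {n : ℕ} {o : ℝ × ℝ} {ι : Type} [Countable ι] {I : Finset ι} {Q : ι → USq} {W : ℝ}
    (h : Cvr n o I Q W)
    (j1 j2 u : ℤ) (hu : u ∈ Finset.Icc j1 j2) (t : ℝ) (ht : 12 * C0 * cw n Q u ≤ t) :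
    ∑ m ∈ Finset.Icc j1 j2, ∑ k ∈ Finset.Icc (-1 : ℤ) (n + 6),
        (if 2 * t < gam Q (m, k) then gam Q (m, k) ^ 2 else 0) ≤
      200 * C0 ^ 2 * (∑ m ∈ Finset.Icc j1 j2, cw n Q m) ^ 2 := by
  sorry

end H282R5.PC
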