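import Pool.Agent.H282R5.PC.Defs

/-! STUB (statements only). -/

namespace H282R5.PC

open MeasureTheory
open scoped Real ENNReal
open H282R3.SQ (USq Inside)
open H282R4.PK (slope rho tr F FH cell Rg Kg C0 Bx U V)

/-- the phase along one line in the direction of the vertical reference vector `w` -/
theorem line_F {n : ℕ} {o : ℝ × ℝ} {ι : Type} [Countable ι] {I : Finset ι} {Q : ι → USq} {W : ℝ}
    (h : Cvr n o I Q W)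
    (z0 w : ℝ × ℝ) (hw : w.1 ^ 2 + w.2 ^ 2 = 1) (hw2 : |w.1| ≤ w.2 / 4) (ℓ : ℝ) (hℓ : 0 ≤ ℓ)
    (J : Finset ι) (hJ : ∀ i, ∀ s ∈ Set.Icc 0 ℓ, z0 + s • w ∈ (Q i).C → i ∈ J)
    (hgen : ∀ᵐ s : ℝ, s ∈ Set.Icc 0 ℓ → ∀ i, z0 + s • w ∈ (Q i).C → z0 + s • w ∈ (Q i).O) :
    ‖F Q (z0 + ℓ • w) * Complex.exp (-(2 * π * Complex.I * ℓ)) - F Q z0‖ ≤
      2 * π * (∫⁻ s in Set.Icc (0 : ℝ) ℓ, ov Q (z0 + s • w)).toReal +
      ∑ i ∈ J, (2 * π * |1 - (-(Q i).b * w.1 + (Q i).a * w.2)| *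
          (volume {s : ℝ | s ∈ Set.Icc 0 ℓ ∧ z0 + s • w ∈ (Q i).C}).toReal +
        {i | ∃ s ∈ Set.Icc 0 ℓ, z0 + s • w ∈ (Q i).C ∧ |(Q i).X (z0 + s • w)| = 1 / 2}.indicator
          (fun _ => (4 : ℝ)) i) := by
  sorry

end H282R5.PC
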