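import Pool.Agent.H282R5.PC.Defs

/-! STUB (statements only). -/

namespace H282R5.PC

open MeasureTheory
open scoped Real ENNReal
open H282R3.SQ (USq Inside)
open H282R4.PK (slope rho tr F FH cell Rg Kg C0 Bx U V)

/-- identity along one line in the row direction `u = (w.2, -w.1)` -/
theorem line_G {n : ℕ} {o : ℝ × ℝ} {ι : Type} [Countable ι] {I : Finset ι} {Q : ι → USq} {W : ℝ}
    (h : Cvr n o I Q W)
    (z0 w : ℝ × ℝ) (hw : w.1 ^ 2 + w.2 ^ 2 = 1) (hw2 : |w.1| ≤ w.2 / 4) (ℓ : ℝ) (hℓ : 0 ≤ ℓ)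
    (J : Finset ι)
    (hJ : ∀ i, ∀ s ∈ Set.Icc 0 ℓ, z0 + s • (w.2, -w.1) ∈ (Q i).C → i ∈ J)
    (hgen : ∀ᵐ s : ℝ, s ∈ Set.Icc 0 ℓ → ∀ i, z0 + s • (w.2, -w.1) ∈ (Q i).C →
      z0 + s • (w.2, -w.1) ∈ (Q i).O) :
    ‖Gs Q (z0 + ℓ • (w.2, -w.1)) * Complex.exp (2 * π * Complex.I * ℓ) - Gs Q z0 -
        2 * π * Complex.I * ∫ s in (0 : ℝ)..ℓ,
          Complex.exp (2 * π * Complex.I * s) * F Q (z0 + s • (w.2, -w.1))‖ ≤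
      2 * π * (∫⁻ s in Set.Icc (0 : ℝ) ℓ, ov Q (z0 + s • (w.2, -w.1))).toReal +
      ∑ i ∈ J, (6 * π * |(Q i).a * w.1 + (Q i).b * w.2| *
          (volume {s : ℝ | s ∈ Set.Icc 0 ℓ ∧ z0 + s • (w.2, -w.1) ∈ (Q i).C}).toReal +
        {i | ∃ s ∈ Set.Icc 0 ℓ, z0 + s • (w.2, -w.1) ∈ (Q i).C ∧
          |(Q i).Y (z0 + s • (w.2, -w.1))| = 1 / 2}.indicator (fun _ => (4 : ℝ)) i) := by
  sorry

end H282R5.PC
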