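import Pool.Agent.H282R5.PC.Defs

/-! STUB (statements only). -/

namespace H282R5.PC

open MeasureTheory
open scoped Real ENNReal
open H282R3.SQ (USq Inside)
open H282R4.PK (slope rho tr F FH cell Rg Kg C0 Bx U V)

/-- Two points of the side `X = 1/2` of `Q`, at distance at least `ℓ`, both in `Q'`,
and all triangles in the intersection small: the directions are close. -/
theorem link_rho (Q Q' : USq) (τ ℓ : ℝ) (hℓ : 0 < ℓ)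
    (htri : ∀ z1 z2 z3 : ℝ × ℝ, z1 ∈ Q.C ∩ Q'.C → z2 ∈ Q.C ∩ Q'.C → z3 ∈ Q.C ∩ Q'.C →
      |H282R3.SQ.det3 z1 z2 z3| ≤ τ)
    (z1 z2 : ℝ × ℝ) (h1 : z1 ∈ Q.C ∩ Q'.C) (h2 : z2 ∈ Q.C ∩ Q'.C)
    (hx1 : Q.X z1 = 1 / 2) (hx2 : Q.X z2 = 1 / 2) (hy : ℓ ≤ |Q.Y z1 - Q.Y z2|) :
    rho Q Q' ≤ 2 * τ / ℓ ^ 2 := by
  sorry

end H282R5.PC
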