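import Pool.Agent.H282R5.PC.Defs

/-! STUB (statements only). -/

namespace H282R5.PC

open MeasureTheory
open scoped Real ENNReal
open H282R3.SQ (USq Inside)
open H282R4.PK (slope rho tr F FH cell Rg Kg C0 Bx U V)

/-- local lemma -/
theorem local_lemma {n : ℕ} {o : ℝ × ℝ} {ι : Type} [Countable ι] {I : Finset ι} {Q : ι → USq} {W : ℝ}
    (h : Cvr n o I Q W)
    (z : ℤ × ℤ) (hz : nice Q z) (L : ℕ) (hL : 1 ≤ L) (hLb : L * |bet Q z| ≤ 1 / 8) :
    ENNReal.ofReal (L * |bet Q z|) ≤ U Q L z ∨ ENNReal.ofReal (L * |bet Q z|) ≤ V Q L z ∨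
      (L * bet Q z) ^ 2 ≤ 10 ^ 22 * E Q L z := by
  sorry

end H282R5.PC
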