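import Pool.Agent.H282R5.PC.Defs

/-! STUB (statements only). -/

namespace H282R5.PC

open MeasureTheory
open scoped Real ENNReal
open H282R3.SQ (USq Inside)
open H282R4.PK (slope rho tr F FH cell Rg Kg C0 Bx U V)

/-- one step of the vertical flow -/
theorem one_step {n : ℕ} {o : ℝ × ℝ} {ι : Type} [Countable ι] {I : Finset ι} {Q : ι → USq} {W : ℝ}
    (h : Cvr n o I Q W)
    (c : ℤ × ℤ) (hc : nice Q c) :
    ∫⁻ X in Set.Icc (c.1 : ℝ) (c.1 + 1),
      ‖F Q (X - bet Q c, (c.2 : ℝ) + 1) -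
        Complex.exp (Complex.I * ((2 * π * (Real.sqrt (1 + bet Q c ^ 2) - 1) : ℝ) : ℂ)) *
          F Q (X, (c.2 : ℝ))‖ₑ ≤ ENNReal.ofReal (10 ^ 20 * om Q c) := by
  sorry

end H282R5.PC
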