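import Pool.Agent.H282R5.PC.Defs

/-! STUB (statements only). -/

namespace H282R5.PC

open MeasureTheory
open scoped Real ENNReal
open H282R3.SQ (USq Inside)
open H282R4.PK (slope rho tr F FH cell Rg Kg C0 Bx U V)

/-- rigidity -/
theorem rig {n : ℕ} {o : ℝ × ℝ} {ι : Type} [Countable ι] {I : Finset ι} {Q : ι → USq} {W : ℝ}
    (h : Cvr n o I Q W)
    (c : ℤ × ℤ) (i j : ι) (hi : (Q i).C ⊆ Kg c) (hj : (Q j).C ⊆ Kg c) :
    rho (Q i) (Q j) ≤ C0 * om Q c := by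
  sorry

end H282R5.PC
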