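import Pool.Agent.H282R5.PC.Defs

/-! STUB (statements only). -/

namespace H282R5.PC

open MeasureTheory
open scoped Real ENNReal
open H282R3.SQ (USq Inside)
open H282R4.PK (slope rho tr F FH cell Rg Kg C0 Bx U V)

theorem sum_g {n : ℕ} {o : ℝ × ℝ} {ι : Type} [Countable ι] {I : Finset ι} {Q : ι → USq} {W : ℝ}
    (h : Cvr n o I Q W)
    (Z : Finset (ℤ × ℤ)) (T : Finset ι) (hT : ∀ i ∈ T, cc (Q i) ∈ Z) :
    ∑ i ∈ T, (Q i).g ^ 2 ≤ 500 * ∑ c ∈ Z, (gam Q c ^ 2 + C0 * om Q c) := by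
  sorry

theorem sum_b {n : ℕ} {o : ℝ × ℝ} {ι : Type} [Countable ι] {I : Finset ι} {Q : ι → USq} {W : ℝ}
    (h : Cvr n o I Q W)
    (Z : Finset (ℤ × ℤ)) (T : Finset ι) (hT : ∀ i ∈ T, cc (Q i) ∈ Z) :
    ∑ i ∈ T, |(Q i).b| ≤ 2000 * ∑ c ∈ Z, (gam Q c + C0 * om Q c) := by
  sorry

end H282R5.PC
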