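import Pool.Agent.H282R5.PC.Defs

/-! STUB (statements only). -/

namespace H282R5.PC

open MeasureTheory
open scoped Real ENNReal
open H282R3.SQ (USq Inside)
open H282R4.PK (slope rho tr F FH cell Rg Kg C0 Bx U V)

theorem sum_U {n : ℕ} {o : ℝ × ℝ} {ι : Type} [Countable ι] {I : Finset ι} {Q : ι → USq} {W : ℝ}
    (h : Cvr n o I Q W)
    (hn : 1 ≤ n) (τ : ℝ) (h0 : 0 < τ) (h1 : τ < 1 / 4) (L : ℕ) (hL : 1 ≤ L) (k : ℤ)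
    (hk : -1 ≤ k) (hk2 : k ≤ n + 6) :
    ∫⁻ X in Set.Icc o.1 (o.1 + n - L), ‖F Q (X + L, (k : ℝ)) - F Q (X, (k : ℝ))‖ₑ ≤
      ENNReal.ofReal (10 ^ 23 * (W / τ + L * τ * W)) := by
  sorry

theorem sum_V {n : ℕ} {o : ℝ × ℝ} {ι : Type} [Countable ι] {I : Finset ι} {Q : ι → USq} {W : ℝ}
    (h : Cvr n o I Q W)
    (hn : 1 ≤ n) (τ : ℝ) (h0 : 0 < τ) (h1 : τ < 1 / 4) (L : ℕ) (hL : 1 ≤ L) (k : ℤ)
    (hk : -1 ≤ k) (hk2 : k ≤ n + 6) :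
    ∫⁻ Y in Set.Icc o.2 (o.2 + n - L), ‖FH Q ((k : ℝ), Y + L) - FH Q ((k : ℝ), Y)‖ₑ ≤
      ENNReal.ofReal (10 ^ 23 * (W / τ + L * τ * W)) := by
  sorry

end H282R5.PC
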