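import Pool.Agent.H282R5.PC.Defs

/-! STUB (statements only). -/

namespace H282R5.PC

open MeasureTheory
open scoped Real ENNReal
open H282R3.SQ (USq Inside)
open H282R4.PK (slope rho tr F FH cell Rg Kg C0 Bx U V)

open Classical in
/-- the energy of the small slopes in one window -/
theorem window_low {n : ℕ} {o : ℝ × ℝ} {ι : Type} [Countable ι] {I : Finset ι} {Q : ι → USq} {W : ℝ}
    (h : Cvr n o I Q W)
    (hn : 1 ≤ n) (u1 u2 : ℤ) (h1 : 3 ≤ u1) (h2 : u1 < u2) (h3 : u2 ≤ n + 2) (w0 : ℝ)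
    (hg1 : ∑ m ∈ Finset.Icc (u1 - 2) (u1 + 2), cw n Q m ≤ w0)
    (hg2 : ∑ m ∈ Finset.Icc (u2 - 2) (u2 + 2), cw n Q m ≤ w0)
    (τ : ℝ) (hτ : 24 * C0 * w0 ≤ τ) :
    (u2 : ℝ) - u1 ≤
      1000 * ∑ m ∈ Finset.Icc (u1 - 2) (u2 + 2), ∑ k ∈ Finset.Icc (-1 : ℤ) (n + 6),
        (if gam Q (m, k) ≤ τ then gam Q (m, k) ^ 2 else 0) +
      2 * 10 ^ 5 * C0 ^ 2 * (∑ m ∈ Finset.Icc (u1 - 2) (u2 + 2), cw n Q m) ^ 2 +
      (1 + 1000 * C0) * (∑ m ∈ Finset.Icc (u1 - 2) (u2 + 2), cw n Q m) +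
      3 * 10 ^ 6 * C0 * n * w0 := by
  sorry

end H282R5.PC
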