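import Pool.Agent.H282R5.PC.St.Geo
import Pool.Agent.H282R5.PC.St.Fin
import Pool.Agent.H282R5.PC.St.SumOm
import Pool.Agent.H282R5.PC.St.LinkRho
import Pool.Agent.H282R5.PC.St.ClosePair
import Pool.Agent.H282R5.PC.St.Cluster
import Pool.Agent.H282R5.PC.St.Rig
import Pool.Agent.H282R5.PC.St.Slopes
import Pool.Agent.H282R5.PC.St.Fmeas
import Pool.Agent.H282R5.PC.St.Fnorm
import Pool.Agent.H282R5.PC.St.Fends
import Pool.Agent.H282R5.PC.St.LineF
import Pool.Agent.H282R5.PC.St.LineInt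
import Pool.Agent.H282R5.PC.St.OneStep
import Pool.Agent.H282R5.PC.St.LineG
import Pool.Agent.H282R5.PC.St.LineId
import Pool.Agent.H282R5.PC.St.Core
import Pool.Agent.H282R5.PC.St.DevBound
import Pool.Agent.H282R5.PC.St.Local
import Pool.Agent.H282R5.PC.St.SumE
import Pool.Agent.H282R5.PC.St.FlowStart
import Pool.Agent.H282R5.PC.St.FlowStep
import Pool.Agent.H282R5.PC.St.Flow
import Pool.Agent.H282R5.PC.St.SumUV
import Pool.Agent.H282R5.PC.St.ChordPart
import Pool.Agent.H282R5.PC.St.Window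
import Pool.Agent.H282R5.PC.St.SqCell
import Pool.Agent.H282R5.PC.St.ColRow
import Pool.Agent.H282R5.PC.St.High
import Pool.Agent.H282R5.PC.St.WindowLow
import Pool.Agent.H282R5.PC.St.Energy
import Pool.Agent.H282R5.PC.St.Combine
import Pool.Agent.H282R5.PC.St.Exists
import Pool.Agent.H282R5.PC.St.Final
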