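import Pool.Agent.H282R5.PC.Defs

/-! STUB (statements only). -/

namespace H282R5.PC

open MeasureTheory
open scoped Real ENNReal
open H282R3.SQ (USq Inside)
open H282R4.PK (slope rho tr F FH cell Rg Kg C0 Bx U V)

/-- the multiplicity of the mirror image -/
theorem ov_tr {ι : Type} (Q : ι → USq) (z : ℝ × ℝ) : ov (fun i => tr (Q i)) z = ov Q (z.2, z.1) := by
  sorry

theorem Cvr.trans {n : ℕ} {o : ℝ × ℝ} {ι : Type} [Countable ι] {I : Finset ι} {Q : ι → USq} {W : ℝ}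
    (h : Cvr n o I Q W) :
    Cvr n (o.2, o.1) I (fun i => tr (Q i)) W := by
  sorry

theorem om_tr {ι : Type} (Q : ι → USq) (c : ℤ × ℤ) : om (fun i => tr (Q i)) c = om Q (c.2, c.1) := by
  sorry

/-- outside the box there is an outer square -/
theorem cov_out {n : ℕ} {o : ℝ × ℝ} {ι : Type} [Countable ι] {I : Finset ι} {Q : ι → USq} {W : ℝ}
    (h : Cvr n o I Q W) (z : ℝ × ℝ)
    (hz : z ∉ box n o) : ∃ i, i ∉ I ∧ z ∈ (Q i).C ∧ (Q i).a = 1 ∧ (Q i).b = 0 := by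
  sorry

theorem cov {n : ℕ} {o : ℝ × ℝ} {ι : Type} [Countable ι] {I : Finset ι} {Q : ι → USq} {W : ℝ}
    (h : Cvr n o I Q W) (z : ℝ × ℝ) :
    ∃ i, z ∈ (Q i).C := by
  sorry

/-- the squares of `I` are near the box -/
theorem inner_sub {n : ℕ} {o : ℝ × ℝ} {ι : Type} [Countable ι] {I : Finset ι} {Q : ι → USq} {W : ℝ}
    (h : Cvr n o I Q W) (i : ι)
    (hi : i ∈ I) (z : ℝ × ℝ) (hz : z ∈ (Q i).C) :
    1 / 2 < z.1 ∧ z.1 < n + 9 / 2 ∧ 1 / 2 < z.2 ∧ z.2 < n + 9 / 2 := by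
  sorry

/-- tilted squares are in `I` -/
theorem tilted {n : ℕ} {o : ℝ × ℝ} {ι : Type} [Countable ι] {I : Finset ι} {Q : ι → USq} {W : ℝ}
    (h : Cvr n o I Q W) (i : ι)
    (hi : (Q i).b ≠ 0) : i ∈ I := by
  sorry

end H282R5.PC
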