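import Pool.Agent.H282R5.PC.Defs

/-! STUB (statements only). -/

namespace H282R5.PC

open MeasureTheory
open scoped Real ENNReal
open H282R3.SQ (USq Inside)
open H282R4.PK (slope rho tr F FH cell Rg Kg C0 Bx U V)

/-- integrated version (Fubini), start points `z0 + t e`, end points at distance `ℓ t` -/
theorem line_int {n : ℕ} {o : ℝ × ℝ} {ι : Type} [Countable ι] {I : Finset ι} {Q : ι → USq} {W : ℝ}
    (h : Cvr n o I Q W)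
    (z0 e w : ℝ × ℝ) (hw : w.1 ^ 2 + w.2 ^ 2 = 1) (hw2 : |w.1| ≤ w.2 / 4) (J : ℝ) (hJ : 0 < J)
    (hdet : J ≤ |e.1 * w.2 - e.2 * w.1|) (t1 t2 : ℝ) (ℓ : ℝ → ℝ) (hℓ : ∀ t, 0 ≤ ℓ t)
    (B : Set (ℝ × ℝ)) (hBm : MeasurableSet B) (hB : Bornology.IsBounded B)
    (hsub : ∀ t ∈ Set.Icc t1 t2, ∀ s ∈ Set.Icc 0 (ℓ t), z0 + t • e + s • w ∈ B) :
    ∫⁻ t in Set.Icc t1 t2, ‖F Q (z0 + t • e + ℓ t • w) *
        Complex.exp (-(2 * π * Complex.I * (ℓ t : ℝ))) - F Q (z0 + t • e)‖ₑ ≤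
      ENNReal.ofReal (20 / J * Dev Q w B) := by
  sorry

end H282R5.PC
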