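import Pool.Agent.H282R5.PC.Defs

/-! STUB (statements only). -/

namespace H282R5.PC

open MeasureTheory
open scoped Real ENNReal
open H282R3.SQ (USq Inside)
open H282R4.PK (slope rho tr F FH cell Rg Kg C0 Bx U V)

open Classical in
/-- inequality between lengths and areas in a vertical strip -/
theorem window_ineq {n : ℕ} {o : ℝ × ℝ} {ι : Type} [Countable ι] {I : Finset ι} {Q : ι → USq} {W : ℝ}
    (h : Cvr n o I Q W)
    (u1 u2 : ℤ) (h1 : 3 ≤ u1) (h2 : u1 < u2) (h3 : u2 ≤ n + 2) :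
    (u2 : ℝ) - u1 ≤ (∫⁻ z in {z : ℝ × ℝ | z.1 ∈ Set.Icc (u1 : ℝ) u2}, ov Q z).toReal +
      2 * ∑ i ∈ I.filter (fun i => ((Q i).C ∩ {z | z.1 ∈ Set.Icc (u1 : ℝ) u2}).Nonempty),
        (Q i).g ^ 2 +
      6 * ∑ i ∈ I.filter (fun i => ((Q i).C ∩ {z | z.1 = (u1 : ℝ)}).Nonempty), |(Q i).b| +
      6 * ∑ i ∈ I.filter (fun i => ((Q i).C ∩ {z | z.1 = (u2 : ℝ)}).Nonempty), |(Q i).b| := by
  sorry

end H282R5.PC
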